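import Pool.Agent.P.MP_029dcd_co.F.S2.Pot

/-! Layer S2, part 3: a maximal family of marks. -/

set_option autoImplicit false

namespace ECub.S2

open CubicStab MeasureTheory Filter Topology Finset
open scoped ENNReal

variable {S : Sys}

/-- the same action with another invariant measure -/
def withM (D : Dyn) (m : Measure D.Ω) (hm : IsProbabilityMeasure m)
    (hmp : ∀ w, MeasurePreserving (D.T w) m m) : Dyn :=
  { Ω := D.Ω, μ := m, prob := hm, T := D.T, T_zero := D.T_zero, T_add := D.T_add, mp := hmp }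

/-- sum over the canonical labels of the cell zero -/
noncomputable def fib (S : Sys) (i : Fin 3) (f : S.Ω × ℕ → ℝ) (ω : S.Ω) : ℝ :=
  ∫ j, {x : S.Ω × ℕ | (S.Γ x.1).Can i (0, x.2)}.indicator f (ω, j) ∂Measure.count

theorem fib_int (i : Fin 3) {f : S.Ω × ℕ → ℝ} (hf : Integrable f (S.mh i)) :
    Integrable (fib S i f) S.μ ∧ ∫ ω, fib S i f ω ∂S.μ = ∫ x, f x ∂(S.mh i) := by
  have h := (integrable_indicator_iff (μ := S.μ.prod Measure.count) (meas_can i)).2 hf
  refine ⟨h.integral_prod_left, ?_⟩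
  rw [Sys.mh, ← integral_indicator (meas_can i), integral_prod _ h]
  rfl

theorem int_bdd {α : Type*} [MeasurableSpace α] (μ : Measure α) [IsFiniteMeasure μ] {f : α → ℝ}
    (hf : Measurable f) {B : ℝ} (hB : ∀ x, |f x| ≤ B) : Integrable f μ :=
  Integrable.of_bound hf.aestronglyMeasurable B (Eventually.of_forall hB)

section Marks

variable {A : Set (S.Ω × ℕ)} {n : ℕ} {ν : S.Ω × ℕ → E n}

theorem meas_dot {α : Type*} [MeasurableSpace α] {f g : α → E n} (hf : Measurable f)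
    (hg : Measurable g) : Measurable fun y => f y ⬝ᵥ g y := by
  unfold dotProduct
  fun_prop

theorem mp_res (hA : MeasurableSet A) (i : Fin 3) (D : Dyn) (π : D.Ω → S.Ω)
    (hπ : D.Fac S.toDyn π) : MeasurePreserving (fun x : D.Ω × ℕ => (π x.1, x.2))
      (((S.pull D π hπ).mh i).restrict (pullS π A)) ((S.mh i).restrict A) :=
  (S.mp_mh D π hπ i).restrict_preimage hA

theorem marks_pull (hν : S.Marks A ν) (D : Dyn) (π : D.Ω → S.Ω) (hπ : D.Fac S.toDyn π) :
    (S.pull D π hπ).Marks (pullS π A) (pullF π ν) where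
  meas := hν.meas.comp ((hπ.mp.measurable.comp measurable_fst).prodMk measurable_snd)
  bdd := hν.bdd.imp fun _ h _ => h _
  line := hν.line.pull D π hπ
  one _ := hν.one _
  slope x hx := hν.slope (π x.1, x.2) hx
  lin k := hπ.mp.quasiMeasurePreserving.ae (hν.lin k)

theorem gram_pull (hA : MeasurableSet A) (hν : Measurable ν) (hg : S.Gram A ν) (D : Dyn)
    (π : D.Ω → S.Ω) (hπ : D.Fac S.toDyn π) : (S.pull D π hπ).Gram (pullS π A) (pullF π ν) := by
  refine fun x hx => hg x fun i => ?_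
  have h := mp_res hA i D π hπ
  rw [← h.map_eq]
  exact (ae_map_iff h.measurable.aemeasurable
    (measurableSet_eq_fun (meas_dot measurable_const hν) measurable_const)).2 (hx i)

/-- one more mark -/
def sn (v : E n) (a : ℝ) : E (n + 1) := Fin.snoc (α := fun _ => ℝ) v a

theorem sn_cast (v : E n) (a : ℝ) (k : Fin (n + 2)) : sn v a k.castSucc = v k :=
  Fin.snoc_castSucc (α := fun _ => ℝ) _ _ _

theorem sn_last (v : E n) (a : ℝ) : sn v a (Fin.last _) = a := Fin.snoc_last (α := fun _ => ℝ) _ _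

theorem dot_sn (x : E (n + 1)) (v : E n) (a : ℝ) :
    x ⬝ᵥ sn v a = (fun k : Fin (n + 2) => x k.castSucc) ⬝ᵥ v + x (Fin.last _) * a := by
  rw [dotProduct, Fin.sum_univ_castSucc, sn_last]
  simp only [sn_cast]
  rfl

theorem marks_sn (hν : S.Marks A ν) {h : S.Ω × ℕ → ℝ} (hm : Measurable h)
    (hb : ∃ B : ℝ, ∀ x, |h x| ≤ B) (hl : S.LineFn h) (ht : S.LinT A h) :
    S.Marks A fun x => sn (ν x) (h x) where
  meas := by
    refine measurable_pi_lambda _ fun k => ?_
    refine Fin.lastCases ?_ (fun k => ?_) k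
    · simpa only [sn_last] using hm
    · simp only [sn_cast]
      exact (measurable_pi_apply k).comp hν.meas
  bdd := by
    obtain ⟨B, hB⟩ := hν.bdd
    obtain ⟨B', hB'⟩ := hb
    refine ⟨max B B', fun x => (pi_norm_le_iff_of_nonempty _).2 fun k => ?_⟩
    refine Fin.lastCases ?_ (fun k => ?_) k
    · rw [sn_last]
      exact (hB' x).trans (le_max_right _ _)
    · rw [sn_cast]
      exact ((norm_le_pi_norm _ k).trans (hB x)).trans (le_max_left _ _)
  line := by
    filter_upwards [hν.line, hl] with ω h1 h2 l l' k1 k2 k3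
    exact congrArg₂ sn (h1 l l' k1 k2 k3) (h2 l l' k1 k2 k3)
  one x := (sn_cast _ _ 0).trans (hν.one x)
  slope x hx := by
    rw [← hν.slope x hx, ← sn_cast (ν x) (h x) 1, Fin.castSucc_one]
  lin k := by
    refine Fin.lastCases ?_ (fun k => ?_) k
    · simpa only [sn_last] using ht
    · simpa only [sn_cast] using hν.lin k

/-- the Gram map has a left inverse -/
theorem exists_left (hν : S.Marks0 ν) (hg : S.Gram A ν) : ∃ L : E n →L[ℝ] E n,
    ∀ x : E n, L (fun k => ∑ i, ∫ y in A, (x ⬝ᵥ ν y) * ν y k ∂(S.mh i)) = x := by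
  obtain ⟨B, hB⟩ := hν.bdd
  have hm : ∀ k, Measurable fun y => ν y k := fun k => (measurable_pi_apply k).comp hν.meas
  have hB1 : ∀ y k, |ν y k| ≤ B := fun y k => (norm_le_pi_norm _ k).trans (hB y)
  have hi0 : ∀ i k l, Integrable (fun y => ν y l * ν y k) ((S.mh i).restrict A) := fun i k l =>
    int_bdd _ ((hm l).mul (hm k)) (B := B * B) fun y => by
      rw [abs_mul]
      exact mul_le_mul (hB1 y l) (hB1 y k) (abs_nonneg _) ((abs_nonneg _).trans (hB1 y k))
  have hi : ∀ i k (x : E n), Integrable (fun y => (x ⬝ᵥ ν y) * ν y k) ((S.mh i).restrict A) := by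
    intro i k x
    simp only [dotProduct, Finset.sum_mul, mul_assoc]
    exact integrable_finsetSum _ fun l _ => (hi0 i k l).const_mul _
  let G : E n →ₗ[ℝ] E n :=
    { toFun := fun x k => ∑ i, ∫ y in A, (x ⬝ᵥ ν y) * ν y k ∂(S.mh i)
      map_add' := fun x x' => by
        funext k
        simp only [add_dotProduct, add_mul, Pi.add_apply, ← Finset.sum_add_distrib]
        exact Finset.sum_congr rfl fun i _ => integral_add (hi i k x) (hi i k x')
      map_smul' := fun c x => by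
        funext k
        simp only [smul_dotProduct, smul_eq_mul, mul_assoc, Pi.smul_apply, RingHom.id_apply,
          Finset.mul_sum, integral_const_mul] }
  have hker : LinearMap.ker G = ⊥ := by
    refine LinearMap.ker_eq_bot'.2 fun x hx => hg x fun i => ?_
    have e : ∀ y, (x ⬝ᵥ ν y) * (x ⬝ᵥ ν y) = ∑ k, x k * ((x ⬝ᵥ ν y) * ν y k) := by
      intro y
      conv_lhs => rw [mul_comm, dotProduct, Finset.sum_mul]
      exact Finset.sum_congr rfl fun k _ => by rw [dotProduct]; ring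
    have hsq : ∀ i, Integrable (fun y => (x ⬝ᵥ ν y) * (x ⬝ᵥ ν y)) ((S.mh i).restrict A) := by
      intro i
      simp only [e]
      exact integrable_finsetSum _ fun k _ => (hi i k x).const_mul _
    have h1 : ∑ i, ∫ y in A, (x ⬝ᵥ ν y) * (x ⬝ᵥ ν y) ∂(S.mh i) = 0 := by
      calc ∑ i, ∫ y in A, (x ⬝ᵥ ν y) * (x ⬝ᵥ ν y) ∂(S.mh i)
          = ∑ i, ∑ k, x k * ∫ y in A, (x ⬝ᵥ ν y) * ν y k ∂(S.mh i) := by
            refine Finset.sum_congr rfl fun i _ => ?_
            simp only [e]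
            rw [integral_finsetSum _ fun k _ => (hi i k x).const_mul _]
            simp only [integral_const_mul]
        _ = ∑ k, x k * G x k := by
            rw [Finset.sum_comm]
            simp only [← Finset.mul_sum]
            rfl
        _ = 0 := by simp [hx]
    rw [Finset.sum_eq_zero_iff_of_nonneg fun i _ => integral_nonneg fun y => mul_self_nonneg _]
      at h1
    have h2 := (integral_eq_zero_iff_of_nonneg (fun y => mul_self_nonneg _) (hsq i)).1
      (h1 i (Finset.mem_univ i))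
    filter_upwards [h2] with y hy
    exact mul_self_eq_zero.1 hy
  obtain ⟨L, hL⟩ := G.exists_leftInverse_of_injective hker
  exact ⟨LinearMap.toContinuousLinearMap L, fun x => LinearMap.congr_fun hL x⟩

/-- in an extension without further independent marks, `h` is a combination of the marks -/
theorem comb_of_not_gram (hg : S.Gram A ν) {h : S.Ω × ℕ → ℝ}
    (hn : ¬ S.Gram A fun x => sn (ν x) (h x)) :
    ∃ K : E n, ∀ i, ∀ᵐ y ∂((S.mh i).restrict A), h y = K ⬝ᵥ ν y := by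
  simp only [Sys.Gram, not_forall] at hn
  obtain ⟨x, hx, h0⟩ := hn
  simp only [dot_sn] at hx
  have h1 : x (Fin.last _) ≠ 0 := by
    intro e
    simp only [e, zero_mul, add_zero] at hx
    have h2 := hg _ hx
    refine h0 (funext fun k => ?_)
    refine Fin.lastCases e (fun k => congrFun h2 k) k
  refine ⟨-(x (Fin.last _))⁻¹ • fun k : Fin (n + 2) => x k.castSucc, fun i => ?_⟩
  filter_upwards [hx i] with y hy
  rw [smul_dotProduct, smul_eq_mul]
  field_simp
  linarith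

theorem maxP_of (hS : S.toDyn.Erg) (hA : S.LineSet A) (hν : S.Marks A ν) (hg : S.Gram A ν)
    (hmax : ∀ (D : Dyn) (π : D.Ω → S.Ω) (hπ : D.Fac S.toDyn π), D.Erg →
      ∀ ν' : D.Ω × ℕ → E (n + 1), (S.pull D π hπ).Marks (pullS π A) ν' →
        ¬ (S.pull D π hπ).Gram (pullS π A) ν') : S.MaxP A ν := by
  intro D π hπ h hm ⟨Bh, hBh⟩ hline hlin
  obtain ⟨L, hL⟩ := exists_left hν.toMarks0 hg
  obtain ⟨Bν, hBν⟩ := hν.bdd
  obtain ⟨κ, hκ, hbind, hcomp⟩ := erg_dec_fac D S.toDyn π hπ hS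
  have hA' : MeasurableSet (pullS π A) := (hA.pull D π hπ).1
  have hν' : Measurable (pullF π ν) := (marks_pull hν D π hπ).meas
  let f : Fin (n + 2) → D.Ω × ℕ → ℝ := fun k x => h x * pullF π ν x k
  have hfm : ∀ k, Measurable (f k) := fun k => hm.mul ((measurable_pi_apply k).comp hν')
  have hfb : ∀ k x, |f k x| ≤ Bh * Bν := fun k x => by
    rw [abs_mul]
    exact mul_le_mul (hBh x) ((norm_le_pi_norm _ k).trans (hBν _)) (abs_nonneg _)
      ((abs_nonneg _).trans (hBh x))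
  have hB0 : 0 ≤ Bh * Bν := by
    obtain ⟨ω⟩ := nonempty_of_isProbabilityMeasure D.μ
    exact (abs_nonneg _).trans (hfb 0 (ω, 0))
  let F : Fin (n + 2) → D.Ω → ℝ := fun k ω =>
    ∑ i, fib (S.pull D π hπ) i ((pullS π A).indicator (f k)) ω
  have hF : ∀ (m : Measure D.Ω) (hm : IsProbabilityMeasure m)
      (hmp : ∀ w, MeasurePreserving (D.T w) m m) (hπm : (withM D m hm hmp).Fac S.toDyn π) k,
      Integrable (F k) m ∧ ∫ ω, F k ω ∂m =
        ∑ i, ∫ x in pullS π A, f k x ∂((S.pull (withM D m hm hmp) π hπm).mh i) := by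
    intro m hm hmp hπm k
    have h1 := fun i => fib_int (S := S.pull (withM D m hm hmp) π hπm) i
      ((@int_bdd _ _ _ (Sys.mh_finite _ i) _ (hfm k) _ (hfb k)).indicator hA')
    refine ⟨integrable_finsetSum _ fun i _ => (h1 i).1, ?_⟩
    refine (integral_finsetSum _ fun i _ => (h1 i).1).trans (Finset.sum_congr rfl fun i _ => ?_)
    exact (h1 i).2.trans (integral_indicator hA')
  choose Fb hFm hFinv _ _ hFlim using fun k =>
    et2 D.μ D.T D.T_zero D.T_add D.mp (F k) (hF D.μ D.prob D.mp hπ k).1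
  obtain ⟨B0, hB00, hB0'⟩ : ∃ B0 : ℝ, 0 ≤ B0 ∧ ∑ i, Bh * Bν * (S.mh i).real Set.univ ≤ B0 :=
    ⟨_, Finset.sum_nonneg fun i _ => mul_nonneg hB0 measureReal_nonneg, le_rfl⟩
  let K : D.Ω → E n := fun ω => L fun k => max (-B0) (min (Fb k ω) B0)
  have hK : Measurable K := L.continuous.measurable.comp
    (measurable_pi_lambda _ fun k => measurable_const.max ((hFm k).min measurable_const))
  refine ⟨K, hK, ⟨‖L‖ * B0, fun ω => ?_⟩, fun w ω => by simp only [K, hFinv], fun i => ?_⟩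
  · refine (L.le_opNorm _).trans (mul_le_mul_of_nonneg_left ?_ (norm_nonneg _))
    refine (pi_norm_le_iff_of_nonneg hB00).2 fun k => abs_le.2 ⟨le_max_left _ _, ?_⟩
    exact max_le (by linarith) (min_le_right _ _)
  refine (ae_restrict_iff' hA').2 ((ae_mh_iff (S := S.pull D π hπ) i _).2 ?_)
  have hG : MeasurableSet {x : D.Ω × ℕ | (S.Γ (π x.1)).Can i (0, x.2) → x ∈ pullS π A →
      h x = K x.1 ⬝ᵥ pullF π ν x} :=
    (meas_can (S := S.pull D π hπ) i).imp (hA'.imp
      (measurableSet_eq_fun hm (meas_dot (hK.comp measurable_fst) hν')))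
  have hG' : MeasurableSet {ω : D.Ω | ∀ j, (S.Γ (π ω)).Can i (0, j) → (ω, j) ∈ pullS π A →
      h (ω, j) = K ω ⬝ᵥ pullF π ν (ω, j)} := by
    rw [Set.ofPred_forall]
    exact MeasurableSet.iInter fun j => measurable_prodMk_right hG
  have hae : ∀ p : D.Ω → Prop, (∀ᵐ ω ∂D.μ, p ω) → ∀ᵐ ω ∂D.μ, ∀ᵐ ω' ∂(κ ω), p ω' := fun p hp =>
    Measure.ae_ae_of_ae_comp (hbind.symm ▸ hp)
  change ∀ᵐ ω ∂D.μ, _
  rw [← hbind]
  refine Measure.ae_comp_of_ae_ae hG' ?_
  filter_upwards [hcomp, hae _ hline, hae _ hlin, hae _ (ae_all_iff.2 hFlim)]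
    with ω0 ⟨k1, k2, k3⟩ k4 k5 k6
  let Dm := withM D (κ ω0) inferInstance k1
  have hπm : Dm.Fac S.toDyn π := ⟨k3, hπ.comm⟩
  have hνm := marks_pull hν Dm π hπm
  obtain ⟨K0, hK0⟩ := comb_of_not_gram (gram_pull hA.1 hν.meas hg Dm π hπm)
    (hmax Dm π hπm k2 _ (marks_sn hνm hm ⟨Bh, hBh⟩ k4 k5))
  have h1 : ∀ k, ∫ ω, F k ω ∂(κ ω0) = ∑ i, ∫ y in A, (K0 ⬝ᵥ ν y) * ν y k ∂(S.mh i) := by
    intro k
    rw [(hF _ _ k1 hπm k).2]
    refine Finset.sum_congr rfl fun i _ => ?_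
    have h2 := mp_res hA.1 i Dm π hπm
    have h3 : Measurable fun y => (K0 ⬝ᵥ ν y) * ν y k :=
      (meas_dot measurable_const hν.meas).mul ((measurable_pi_apply k).comp hν.meas)
    rw [← h2.map_eq]
    refine Eq.trans ?_ (integral_map h2.measurable.aemeasurable h3.aestronglyMeasurable).symm
    refine integral_congr_ae ?_
    filter_upwards [hK0 i] with y hy
    exact congrArg (· * _) hy
  have h2 : ∀ k, |∫ ω, F k ω ∂(κ ω0)| ≤ B0 := by
    intro k
    rw [(hF _ _ k1 hπm k).2]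
    refine (Finset.abs_sum_le_sum_abs _ _).trans (le_trans (Finset.sum_le_sum fun i _ => ?_) hB0')
    refine (norm_integral_le_of_norm_le_const (f := f k)
      (μ := ((S.pull Dm π hπm).mh i).restrict (pullS π A)) (Eventually.of_forall (hfb k))).trans
      (mul_le_mul_of_nonneg_left ?_ hB0)
    rw [measureReal_def (S.mh i), ← mh_pull MeasurableSet.univ i Dm π hπm,
      measureReal_restrict_apply_univ]
    exact measureReal_mono (Set.subset_univ _)
  have h3 : ∀ᵐ ω ∂(κ ω0), K ω = K0 := by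
    filter_upwards [k6, ae_all_iff.2 fun k =>
      et2_erg (κ ω0) D.T D.T_zero D.T_add k1 k2 (F k) (hF _ _ k1 hπm k).1] with ω e1 e2
    rw [← hL K0]
    refine congrArg L (funext fun k => ?_)
    rw [(e1 k).unique (e2 k), min_eq_left (abs_le.1 (h2 k)).2, max_eq_right (abs_le.1 (h2 k)).1, h1]
  have h4 := (ae_mh_iff (S := S.pull Dm π hπm) i _).1 ((ae_restrict_iff' hA').1 (hK0 i))
  filter_upwards [h3, h4] with ω e1 e2 j hj hj'
  rw [e1]
  exact e2 j hj hj'

end Marks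

open Classical in
/-- the constant mark and the slope -/
noncomputable def ν0 (S : Sys) (x : S.Ω × ℕ) : E 0 :=
  ![1, if (S.Γ x.1).valid (0, x.2) then S.sl x else 0]

theorem marks_zero (A : Set (S.Ω × ℕ)) : S.Marks A (ν0 S) where
  meas := by
    refine measurable_pi_lambda _ fun k => ?_
    fin_cases k
    · exact measurable_const
    · exact Measurable.ite meas_valid S.measurable_sl measurable_const
  bdd := by
    refine ⟨2, fun x => (pi_norm_le_iff_of_nonempty _).2 fun k => ?_⟩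
    fin_cases k
    · simp [ν0]
    · by_cases hx : (S.Γ x.1).valid (0, x.2)
      · have h1 := (S.ax x.1).slope _ hx
        have h2 : ∀ i, |ctr i| ≤ 1 := fun i => by fin_cases i <;> simp [ctr]
        have h3 := abs_sub_abs_le_abs_sub ((S.Γ x.1).t (0, x.2)) (ctr ((S.Γ x.1).fam (0, x.2)))
        have h4 := h2 ((S.Γ x.1).fam (0, x.2))
        simp only [ν0, if_pos hx, Sys.sl]
        change |_| ≤ _
        simp only [Fin.mk_one, Matrix.cons_val_one, Matrix.cons_val_fin_one]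
        linarith
      · simp [ν0, hx]
  line := by
    refine Eventually.of_forall fun ω l l' hl hl' hs => ?_
    have e : ∀ l, (S.Γ ω).valid l → S.ev (ν0 S) ω l = ![1, (S.Γ ω).t l] := by
      intro l hl
      have h1 : (S.Γ (S.T l.1 ω)).valid (0, l.2) := by
        simpa [Gal.valid, (S.shift ω _).g] using hl
      simp [Sys.ev, ν0, h1, Sys.sl, (S.shift ω _).t]
    rw [e l hl, e l' hl', (S.ax ω).same_t l l' hl hl' hs]
  one _ := rfl
  slope x hx := by simp [ν0, hx]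
  lin k := by
    refine Eventually.of_forall fun ω hω => ?_
    have e : ∀ i, ν0 S (S.tx ω i) = ![1, S.sl (S.tx ω i)] := fun i => by
      simp only [ν0, if_pos (tx_can hω.1 i).1]
    fin_cases k
    · simp [e, co, Fin.sum_univ_three]
    · simp [e, co, Fin.sum_univ_three]
      ring

theorem gram_zero {A : Set (S.Ω × ℕ)} (hA : MeasurableSet A) (hT : S.μ (S.TA A) ≠ 0) :
    S.Gram A (ν0 S) := by
  intro x hx
  obtain ⟨ω, hω, h⟩ := Measure.exists_mem_of_measure_ne_zero_of_ae hT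
    ((ae_restrict_iff' (S.measurableSet_TA hA)).2 (by
      filter_upwards [ae_TA hA 0 (hx 0), ae_TA hA 1 (hx 1)] with ω h0 h1 h
      exact (⟨h0 h, h1 h⟩ : _ ∧ _)))
  have e : ∀ i, ν0 S (S.tx ω i) = ![1, S.sl (S.tx ω i)] := fun i => by
    simp only [ν0, if_pos (tx_can hω.1 i).1]
  have s : ∀ i, |S.sl (S.tx ω i) - ctr i| ≤ 1 / 100 := fun i => by
    have := (S.ax (S.tx ω i).1).slope _ (tx_can hω.1 i).1
    rwa [(tx_can hω.1 i).2.1] at this
  obtain ⟨h0, h1⟩ := h
  have s0 := abs_le.1 (s 0)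
  have s1 := abs_le.1 (s 1)
  simp [e, dotProduct, Fin.sum_univ_two] at h0 h1
  simp [ctr] at s0 s1
  have h2 : x 1 = 0 := by
    have : x 1 * (S.sl (S.tx ω 0) - S.sl (S.tx ω 1)) = 0 := by linarith
    exact (mul_eq_zero.1 this).resolve_right (by linarith [s0.1, s1.2])
  have h3 : x 0 = 0 := by simpa [h2] using h0
  funext k
  fin_cases k
  · exact h3
  · exact h2

/-- an extension with a maximal family of marks -/
theorem stageB (S : Sys) (hS : S.toDyn.Erg) {Λ : (ℝ × ℝ) ≃L[ℝ] (ℝ × ℝ)} (hΛ : S.Lin Λ)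
    {A : Set (S.Ω × ℕ)} (hA : S.LineSet A) (hT : S.μ (S.TA A) ≠ 0) {c1 : NNReal} (hc1 : 0 < c1)
    (hcore : S.Core A c1) :
    ∃ (D : Dyn) (π : D.Ω → S.Ω) (hπ : D.Fac S.toDyn π) (n : ℕ) (ν : D.Ω × ℕ → E n), D.Erg ∧
      (S.pull D π hπ).Marks (pullS π A) ν ∧ (S.pull D π hπ).Gram (pullS π A) ν ∧
      (S.pull D π hπ).MaxP (pullS π A) ν := by
  classical
  let P : ℕ → Prop := fun n => ∃ (D : Dyn) (π : D.Ω → S.Ω) (hπ : D.Fac S.toDyn π)
    (ν : D.Ω × ℕ → E n), D.Erg ∧ (S.pull D π hπ).Marks (pullS π A) ν ∧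
      (S.pull D π hπ).Gram (pullS π A) ν
  have h0 : P 0 := ⟨S.toDyn, fun ω => ω, fac_id _, ν0 S, hS, marks_zero A, gram_zero hA.1 hT⟩
  obtain ⟨C0, hC0⟩ := msys0 Λ
  obtain ⟨M0, hM0⟩ := dim_bound C0 c1 (∑ i, (S.mh i Set.univ).toNNReal)
  have hb : ∀ n, P n → n ≤ M0 := by
    rintro n ⟨D, π, hπ, ν, hD, hν, hg⟩
    refine hM0 n _ _ (hC0 _ hD (hΛ.pull D π hπ) _ (hA.pull D π hπ) n ν hν c1 hc1
      (core_pull hA hcore D π hπ) hg) fun i => ?_
    rw [mA_apply hν.meas i MeasurableSet.univ]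
    refine (measure_mono (Set.subset_univ _)).trans
      ((mh_pull MeasurableSet.univ i D π hπ).le.trans ?_)
    rw [← ENNReal.coe_toNNReal (measure_ne_top (S.mh i) Set.univ), ENNReal.coe_le_coe]
    exact Finset.single_le_sum (f := fun i => (S.mh i Set.univ).toNNReal)
      (fun _ _ => zero_le) (Finset.mem_univ i)
  obtain ⟨D, π, hπ, ν, hD, hν, hg⟩ := Nat.findGreatest_spec (P := P) (Nat.zero_le M0) h0
  refine ⟨D, π, hπ, _, ν, hD, hν, hg, maxP_of hD (hA.pull D π hπ) hν hg ?_⟩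
  intro D' π' hπ' hD' ν' hν' hg'
  have h1 : P (Nat.findGreatest P M0 + 1) :=
    ⟨D', fun ω => π (π' ω), fac_comp hπ hπ', ν', hD', hν', hg'⟩
  have := Nat.le_findGreatest (hb _ h1) h1
  omega

theorem stage2 (S : Sys) (hS : S.toDyn.Erg) {Λ : (ℝ × ℝ) ≃L[ℝ] (ℝ × ℝ)} (hΛ : S.Lin Λ)
    {b c : Fin 3} (hbc : b ≠ c) {A0 : Set (S.Ω × ℕ)} (hA0 : S.LineSet A0)
    (hT : S.μ (S.TA A0) ≠ 0) :
    ∃ (D : Dyn) (π : D.Ω → S.Ω) (hπ : D.Fac S.toDyn π) (A : Set (D.Ω × ℕ)) (n : ℕ)
      (ν : D.Ω × ℕ → E n) (c1 : NNReal), D.Erg ∧ (S.pull D π hπ).LineSet A ∧ A ⊆ pullS π A0 ∧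
      D.μ ((S.pull D π hπ).TA A) ≠ 0 ∧ 0 < c1 ∧ (S.pull D π hπ).Core A c1 ∧
      (S.pull D π hπ).Irr A b c ∧ (S.pull D π hπ).Marks A ν ∧ (S.pull D π hπ).Gram A ν ∧
      (S.pull D π hπ).MaxP A ν := by
  obtain ⟨D, π, hπ, A, c1, hD, hA, hs, hT1, hc1, hcore, hirr⟩ := stageA S hS hΛ hbc hA0 hT
  obtain ⟨D', π', hπ', n, ν, hD', hν, hg, hmax⟩ :=
    stageB (S.pull D π hπ) hD (hΛ.pull D π hπ) hA hT1 hc1 hcore
  exact ⟨D', fun ω => π (π' ω), fac_comp hπ hπ', pullS π' A, n, ν, c1, hD', hA.pull D' π' hπ',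
    fun x hx => hs hx, fun h => hT1 ((TA_pull hA.1 D' π' hπ').symm.trans h), hc1,
    core_pull hA hcore D' π' hπ', hirr D' π' hπ' hD', hν, hg, hmax⟩

end ECub.S2
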