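import Pool.Agent.P.MP_029dcd_co.F.LayT
import Pool.Agent.P.MP_029dcd_co.F.LayM

/-! Layer S2, part 1: sets of lines, cores in extensions, laws of marks. -/

set_option autoImplicit false

namespace ECub.S2

open CubicStab MeasureTheory Filter Topology Finset
open scoped ENNReal

variable {S : Sys}

theorem ls_univ : S.LineSet Set.univ :=
  ⟨MeasurableSet.univ, Eventually.of_forall fun _ _ _ _ _ _ => rfl⟩

theorem ls_inter {A B : Set (S.Ω × ℕ)} (hA : S.LineSet A) (hB : S.LineSet B) :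
    S.LineSet (A ∩ B) := by
  refine ⟨hA.1.inter hB.1, ?_⟩
  filter_upwards [hA.2, hB.2] with ω h1 h2 l l' hl hl' hs
  exact congrArg₂ And (h1 l l' hl hl' hs) (h2 l l' hl hl' hs)

theorem ls_compl {A : Set (S.Ω × ℕ)} (hA : S.LineSet A) : S.LineSet Aᶜ := by
  refine ⟨hA.1.compl, ?_⟩
  filter_upwards [hA.2] with ω h1 l l' hl hl' hs
  exact congrArg Not (h1 l l' hl hl' hs)

theorem ls_iInter {A : ℕ → Set (S.Ω × ℕ)} (hA : ∀ m, S.LineSet (A m)) :
    S.LineSet (⋂ m, A m) := by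
  refine ⟨MeasurableSet.iInter fun m => (hA m).1, ?_⟩
  filter_upwards [ae_all_iff.2 fun m => (hA m).2] with ω h1 l l' hl hl' hs
  apply propext
  simp only [Sys.ev, Set.mem_iInter]
  exact forall_congr' fun m => iff_of_eq (h1 m l l' hl hl' hs)

theorem ls_pre {β : Type*} [MeasurableSpace β] {F : S.Ω × ℕ → β} (hm : Measurable F)
    (hF : S.LineFn F) {s : Set β} (hs : MeasurableSet s) : S.LineSet (F ⁻¹' s) := by
  refine ⟨hm hs, ?_⟩
  filter_upwards [hF] with ω h1 l l' hl hl' hs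
  exact congrArg (· ∈ s) (h1 l l' hl hl' hs)

theorem meas_fam : Measurable fun x : S.Ω × ℕ => (S.Γ x.1).fam (0, x.2) :=
  measurable_from_prod_countable_left fun j => S.meas.fam (0, j)

theorem meas_valid : MeasurableSet {x : S.Ω × ℕ | (S.Γ x.1).valid (0, x.2)} :=
  measurableSet_lt measurable_snd ((S.meas.g 0).comp measurable_fst)

theorem meas_can (i : Fin 3) : MeasurableSet {x : S.Ω × ℕ | (S.Γ x.1).Can i (0, x.2)} := by
  have h : Measurable fun x : S.Ω × ℕ => (S.Γ x.1).can (0, x.2) :=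
    measurable_from_prod_countable_left fun j => S.meas.can (0, j)
  exact meas_valid.inter ((meas_fam (measurableSet_singleton i)).inter
    (h (measurableSet_singleton true)))

theorem meas_tp : MeasurableSet {ω : S.Ω | (S.Γ ω).tp 0 = true} :=
  S.meas.tp 0 (measurableSet_singleton true)

/-- the labels of family `i` -/
def Fam (S : Sys) (i : Fin 3) : Set (S.Ω × ℕ) := {x | (S.Γ x.1).fam (0, x.2) = i}

theorem ls_fam (i : Fin 3) : S.LineSet (Fam S i) := by
  refine ls_pre meas_fam (Eventually.of_forall fun ω l l' hl hl' hs => ?_)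
    (measurableSet_singleton i)
  have := (S.ax ω).same_fam l l' hl hl' hs
  simpa [Sys.ev, (S.shift ω _).fam] using this

theorem tx_can {ω : S.Ω} (h : (S.Γ ω).tp 0 = true) (i : Fin 3) :
    (S.Γ (S.tx ω i).1).Can i (0, (S.tx ω i).2) := (S.ax ω).tp_can 0 h i

theorem ae_can (i : Fin 3) : ∀ᵐ x ∂(S.mh i), (S.Γ x.1).Can i (0, x.2) :=
  ae_restrict_mem (meas_can i)

theorem ae_mh_iff (i : Fin 3) (p : S.Ω × ℕ → Prop) :
    (∀ᵐ x ∂(S.mh i), p x) ↔ ∀ᵐ ω ∂S.μ, ∀ j, (S.Γ ω).Can i (0, j) → p (ω, j) := by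
  constructor
  · intro h
    filter_upwards [S.ae_gal i p h] with ω hω j hj
    simpa [S.T_zero] using hω (0, j) hj
  · intro h
    have h1 : ∀ᵐ x ∂(S.μ.prod (Measure.count : Measure ℕ)),
        ∀ j, (S.Γ x.1).Can i (0, j) → p (x.1, j) :=
      Measure.quasiMeasurePreserving_fst.ae h
    filter_upwards [ae_restrict_of_ae h1, ae_can i] with x h2 h3
    exact h2 x.2 h3

theorem ae_TA {A : Set (S.Ω × ℕ)} (hA : MeasurableSet A) (i : Fin 3) {p : S.Ω × ℕ → Prop}
    (h : ∀ᵐ y ∂((S.mh i).restrict A), p y) : ∀ᵐ ω ∂S.μ, ω ∈ S.TA A → p (S.tx ω i) := by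
  rw [ae_restrict_iff' hA, ae_mh_iff] at h
  filter_upwards [h] with ω h1 h2
  exact h1 _ (tx_can h2.1 i) (h2.2 i)

/-- the labels of family `i` of the triple points in `TA A` -/
def Gr (S : Sys) (A : Set (S.Ω × ℕ)) (i : Fin 3) : Set (S.Ω × ℕ) :=
  {x | x.1 ∈ S.TA A ∧ (S.Γ x.1).tl 0 i = x.2}

theorem meas_gr {A : Set (S.Ω × ℕ)} (hA : MeasurableSet A) (i : Fin 3) :
    MeasurableSet (Gr S A i) :=
  (measurable_fst (S.measurableSet_TA hA)).inter
    (measurableSet_eq_fun ((S.meas.tl 0 i).comp measurable_fst) measurable_snd)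

theorem mh_gr {A B : Set (S.Ω × ℕ)} (hA : MeasurableSet A) (hB : MeasurableSet B) (i : Fin 3) :
    S.mh i (Gr S A i ∩ B) = S.μ (S.TA A ∩ {ω | S.tx ω i ∈ B}) := by
  classical
  have hm := (meas_gr hA i).inter hB
  have hm' : MeasurableSet (S.TA A ∩ {ω | S.tx ω i ∈ B}) :=
    (S.measurableSet_TA hA).inter (S.measurable_tx i hB)
  rw [← lintegral_indicator_one hm, S.lintegral_mh i _ (measurable_one.indicator hm),
    ← lintegral_indicator_one hm']
  refine lintegral_congr fun ω => ?_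
  rw [tsum_eq_single ((S.Γ ω).tl 0 i)]
  · by_cases h : ω ∈ S.TA A ∩ {ω | S.tx ω i ∈ B}
    · rw [if_pos (show (S.Γ ω).Can i (0, (S.Γ ω).tl 0 i) from tx_can h.1.1 i),
        Set.indicator_of_mem h,
        Set.indicator_of_mem (show (ω, (S.Γ ω).tl 0 i) ∈ Gr S A i ∩ B from ⟨⟨h.1, rfl⟩, h.2⟩)]
      rfl
    · rw [Set.indicator_of_notMem h, Set.indicator_of_notMem
        (show (ω, (S.Γ ω).tl 0 i) ∉ Gr S A i ∩ B from fun k => h ⟨k.1.1, k.2⟩), ite_self]
  · intro j hj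
    rw [Set.indicator_of_notMem (show (ω, j) ∉ Gr S A i ∩ B from fun k => hj k.1.2.symm), ite_self]

theorem int_gr {A B : Set (S.Ω × ℕ)} (hA : MeasurableSet A) (hB : MeasurableSet B) (i : Fin 3) :
    ∫ x in B, (Gr S A i).indicator (1 : S.Ω × ℕ → ℝ) x ∂(S.mh i) =
      S.μ.real (S.TA A ∩ {ω | S.tx ω i ∈ B}) := by
  rw [integral_indicator_one (meas_gr hA i), measureReal_def, measureReal_def,
    Measure.restrict_apply (meas_gr hA i), mh_gr hA hB]

/-- the core property for one family -/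
def Core1 (S : Sys) (A : Set (S.Ω × ℕ)) (i : Fin 3) (c : ℝ) : Prop :=
  ∀ B, S.LineSet B → c * (S.mh i).real (B ∩ A) ≤ S.μ.real (S.TA A ∩ {ω | S.tx ω i ∈ B})

theorem core_iff {A : Set (S.Ω × ℕ)} {c : NNReal} : S.Core A c ↔ ∀ i, Core1 S A i c := by
  refine forall_congr' fun i => forall_congr' fun B => forall_congr' fun _ => ?_
  rw [← ENNReal.toReal_le_toReal (ENNReal.mul_ne_top ENNReal.coe_ne_top (measure_ne_top _ _))
    (measure_ne_top _ _), ENNReal.toReal_mul]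
  rfl

theorem Core1.mono {A : Set (S.Ω × ℕ)} {i : Fin 3} {c c' : ℝ} (h : Core1 S A i c) (hc : c' ≤ c) :
    Core1 S A i c' := fun B hB =>
  (mul_le_mul_of_nonneg_right hc measureReal_nonneg).trans (h B hB)

theorem Core1.pull {A : Set (S.Ω × ℕ)} (hA : S.LineSet A) {i : Fin 3} {c : ℝ}
    (h : Core1 S A i c) (D : Dyn) (π : D.Ω → S.Ω) (hπ : D.Fac S.toDyn π) :
    Core1 (S.pull D π hπ) (pullS π A) i c := by
  have hint : ∀ (S : Sys) (A : Set (S.Ω × ℕ)), MeasurableSet A →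
      Integrable ((Gr S A i).indicator (1 : S.Ω × ℕ → ℝ)) (S.mh i) := fun S A hA =>
    (integrable_const (1 : ℝ)).indicator (meas_gr hA i)
  obtain ⟨Fb, hm, hl, hi, he, hlim⟩ := S.line_et i _
    (measurable_one.indicator (meas_gr hA.1 i)) (hint S A hA.1)
  have hA' := hA.pull D π hπ
  obtain ⟨Fb', -, -, hi', he', hlim'⟩ := (S.pull D π hπ).line_et i _
    (measurable_one.indicator (meas_gr hA'.1 i)) (hint _ _ hA'.1)
  have h1 : ∀ᵐ x ∂(S.mh i), x ∈ A → c ≤ Fb x := by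
    have hB : S.LineSet (Fb ⁻¹' Set.Iio c ∩ A) := ls_inter (ls_pre hm hl measurableSet_Iio) hA
    have h2 := h _ hB
    rw [← int_gr hA.1 hB.1, ← he _ hB, Set.inter_assoc, Set.inter_self] at h2
    have h3 : ∀ᵐ x ∂((S.mh i).restrict (Fb ⁻¹' Set.Iio c ∩ A)), 0 ≤ c - Fb x := by
      filter_upwards [ae_restrict_mem hB.1] with x hx
      exact sub_nonneg.2 (le_of_lt hx.1)
    have h4 : ∫ x in Fb ⁻¹' Set.Iio c ∩ A, (c - Fb x) ∂(S.mh i) = 0 := by
      refine le_antisymm ?_ (integral_nonneg_of_ae h3)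
      rw [integral_sub (integrable_const c) hi.restrict, setIntegral_const, smul_eq_mul, mul_comm]
      linarith
    rw [integral_eq_zero_iff_of_nonneg_ae h3 ((integrable_const c).sub hi.restrict)] at h4
    filter_upwards [(ae_restrict_iff' hB.1).1 h4] with x hx hxA
    by_contra hc
    have := hx ⟨not_le.1 hc, hxA⟩
    simp only [Pi.zero_apply] at this
    linarith
  have h2 : ∀ᵐ x ∂((S.pull D π hπ).mh i), Fb' x = Fb (π x.1, x.2) := by
    rw [ae_mh_iff]
    filter_upwards [hlim', hπ.mp.quasiMeasurePreserving.ae hlim] with ω k1 k2 j hj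
    have e1 := k1 (0, j) hj.1 hj.2.1
    have e2 := k2 (0, j) hj.1 hj.2.1
    have e3 : ∀ l, (S.pull D π hπ).ev ((Gr (S.pull D π hπ) (pullS π A) i).indicator
        (1 : D.Ω × ℕ → ℝ)) ω l = S.ev ((Gr S A i).indicator 1) (π ω) l := by
      intro l
      simp only [Sys.ev]
      rw [← hπ.comm]
      rfl
    have e4 := ((congrArg (fun f => IntLim f _)
      (funext fun b => e3 (((S.pull D π hπ).Γ ω).at' (0, j) b))).mp e1).unique e2
    simp only [Sys.ev, Dyn.T_zero] at e4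
    exact e4
  intro B hB
  have hBA := ls_inter hB hA'
  have h3 : ∀ᵐ x ∂(((S.pull D π hπ).mh i).restrict (B ∩ pullS π A)), c ≤ Fb' x := by
    rw [ae_restrict_iff' hBA.1]
    filter_upwards [h2, (S.mp_mh D π hπ i).quasiMeasurePreserving.ae h1] with x k1 k2 hx
    rw [k1]
    exact k2 hx.2
  calc c * ((S.pull D π hπ).mh i).real (B ∩ pullS π A)
      = ∫ _ in B ∩ pullS π A, c ∂((S.pull D π hπ).mh i) := by
        rw [setIntegral_const, smul_eq_mul, mul_comm]
    _ ≤ ∫ x in B ∩ pullS π A, Fb' x ∂((S.pull D π hπ).mh i) :=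
        integral_mono_ae (integrable_const c) hi'.restrict h3
    _ = _ := by rw [he' _ hBA, int_gr hA'.1 hBA.1]
    _ ≤ _ := by
        refine measureReal_mono ?_
        exact fun ω hω => ⟨hω.1, hω.2.1⟩

theorem core_pull {A : Set (S.Ω × ℕ)} (hA : S.LineSet A) {c : NNReal} (h : S.Core A c) (D : Dyn)
    (π : D.Ω → S.Ω) (hπ : D.Fac S.toDyn π) : (S.pull D π hπ).Core (pullS π A) c :=
  core_iff.2 fun i => (core_iff.1 h i).pull hA D π hπ

theorem mh_pull {A : Set (S.Ω × ℕ)} (hA : MeasurableSet A) (i : Fin 3) (D : Dyn)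
    (π : D.Ω → S.Ω) (hπ : D.Fac S.toDyn π) : (S.pull D π hπ).mh i (pullS π A) = S.mh i A :=
  (S.mp_mh D π hπ i).measure_preimage hA.nullMeasurableSet

theorem TA_pull {A : Set (S.Ω × ℕ)} (hA : MeasurableSet A) (D : Dyn)
    (π : D.Ω → S.Ω) (hπ : D.Fac S.toDyn π) :
    D.μ ((S.pull D π hπ).TA (pullS π A)) = S.μ (S.TA A) :=
  hπ.mp.measure_preimage (S.measurableSet_TA hA).nullMeasurableSet

theorem fac_id (D : Dyn) : D.Fac D fun ω => ω := ⟨MeasurePreserving.id _, fun _ _ => rfl⟩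

theorem fac_comp {D D' D'' : Dyn} {π : D'.Ω → D.Ω} {π' : D''.Ω → D'.Ω} (h : D'.Fac D π)
    (h' : D''.Fac D' π') : D''.Fac D fun ω => π (π' ω) :=
  ⟨h.mp.comp h'.mp, fun w ω => by rw [h'.comm, h.comm]⟩

section Marks

variable {A : Set (S.Ω × ℕ)} {n : ℕ} {ν : S.Ω × ℕ → E n}

theorem meas_νtx (hν : Measurable ν) : Measurable fun ω i => ν (S.tx ω i) :=
  measurable_pi_lambda _ fun i => hν.comp (S.measurable_tx i)

theorem mA_apply (hν : Measurable ν) (i : Fin 3) {s : Set (E n)} (hs : MeasurableSet s) :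
    S.mA A ν i s = S.mh i (ν ⁻¹' s ∩ A) := by
  rw [Sys.mA, Measure.map_apply hν hs, Measure.restrict_apply (hν hs)]

theorem κA_apply (hν : Measurable ν) {s : Set (Fin 3 → E n)} (hs : MeasurableSet s) :
    S.κA A ν s = S.μ (S.TA A ∩ {ω | (fun i => ν (S.tx ω i)) ∈ s}) := by
  rw [Sys.κA, Measure.map_apply (meas_νtx hν) hs, Measure.restrict_apply (meas_νtx hν hs),
    Set.inter_comm]
  rfl

theorem κA_map_apply (hν : Measurable ν) (i : Fin 3) {s : Set (E n)} (hs : MeasurableSet s) :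
    (S.κA A ν).map (fun x => x i) s = S.μ (S.TA A ∩ {ω | S.tx ω i ∈ ν ⁻¹' s}) := by
  rw [Measure.map_apply (measurable_pi_apply i) hs, κA_apply hν (measurable_pi_apply i hs)]
  rfl

theorem meas_co (i : Fin 3) : Measurable fun x : Fin 3 → E n => co (fun i => x i 1) i := by
  fin_cases i <;> simp only [co] <;> fun_prop

theorem slope_tx (hν : S.Marks0 ν) {ω : S.Ω} (h : (S.Γ ω).tp 0 = true) (i : Fin 3) :
    ν (S.tx ω i) 1 = S.sl (S.tx ω i) := hν.slope _ (tx_can h i).1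

end Marks

theorem msys0 (Λ : (ℝ × ℝ) ≃L[ℝ] (ℝ × ℝ)) : ∃ C0 : NNReal, ∀ (S : Sys), S.toDyn.Erg →
    S.Lin Λ → ∀ (A : Set (S.Ω × ℕ)), S.LineSet A → ∀ (n : ℕ) (ν : S.Ω × ℕ → E n), S.Marks A ν →
      ∀ c1 : NNReal, 0 < c1 → S.Core A c1 → S.Gram A ν →
      MS0 (S.mA A ν) (S.κA A ν) C0 c1 := by
  obtain ⟨C0, hC0⟩ := pf_kappa Λ
  refine ⟨C0, fun S hS hΛ A hA n ν hν c1 hc1 hcore hg => ?_⟩
  have hm := hν.meas
  refine ⟨fun i => ?_, ?_, ?_, ?_, hC0 S hS hΛ A hA n ν hν.toMarks0, hc1, fun i => ?_,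
    fun i => ?_, fun x hx => hg x fun i => ae_of_ae_map hm.aemeasurable (hx i)⟩
  · unfold Sys.mA
    infer_instance
  · unfold Sys.κA
    infer_instance
  · obtain ⟨B, hB⟩ := hν.bdd
    refine ⟨B, fun i => (ae_map_iff hm.aemeasurable ?_).2 ?_⟩
    · have h1 : MeasurableSet {x : E n | |x 1 - ctr i| ≤ 1 / 100} :=
        measurableSet_le (by fun_prop) measurable_const
      exact (measurableSet_le measurable_norm measurable_const).inter
        ((measurableSet_eq_fun (measurable_pi_apply 0) measurable_const).inter h1)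
    · filter_upwards [ae_restrict_of_ae (ae_can i)] with x hx
      refine ⟨hB x, hν.one x, ?_⟩
      have := (S.ax x.1).slope _ hx.1
      rw [hx.2.1] at this
      rw [hν.slope x hx.1]
      exact this
  · refine (ae_map_iff (meas_νtx hm).aemeasurable ?_).2 ?_
    · exact measurableSet_eq_fun
        (Finset.measurable_sum _ fun i _ => (meas_co i).smul (measurable_pi_apply i))
        measurable_const
    · rw [ae_restrict_iff' (S.measurableSet_TA hA.1)]
      filter_upwards [ae_all_iff.2 hν.lin] with ω h1 h2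
      funext k
      simp only [slope_tx hν.toMarks0 h2.1, Finset.sum_apply, Pi.smul_apply, smul_eq_mul,
        Pi.zero_apply]
      exact h1 k h2
  · refine Measure.le_iff.2 fun s hs => ?_
    rw [κA_map_apply hm i hs, Measure.smul_apply, mA_apply hm i hs]
    exact hcore i _ (ls_pre hm hν.line hs)
  · refine Measure.le_iff.2 fun s hs => ?_
    rw [κA_map_apply hm i hs, mA_apply hm i hs, ← mh_gr hA.1 (hm hs)]
    refine measure_mono fun x hx => ⟨hx.2, ?_⟩
    have := hx.1.1.2 i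
    rwa [Sys.tx, hx.1.2] at this

theorem msys (hS : S.toDyn.Erg) {Λ : (ℝ × ℝ) ≃L[ℝ] (ℝ × ℝ)} (hΛ : S.Lin Λ)
    {A : Set (S.Ω × ℕ)} (hA : S.LineSet A) {n : ℕ} {ν : S.Ω × ℕ → E n} (hν : S.Marks A ν)
    {c1 : NNReal} (hc1 : 0 < c1) (hcore : S.Core A c1) (hg : S.Gram A ν) {b c : Fin 3}
    (hbc : b ≠ c) (hT : S.μ (S.TA A) ≠ 0) (hb : S.NonAt A b) (hc : S.NonAt A c)
    (hr : S.NoRatio) (hirr : S.Irr A b c) :
    ∃ C0 : NNReal, MS (S.mA A ν) (S.κA A ν) C0 c1 b c := by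
  obtain ⟨C0, hC0⟩ := msys0 Λ
  have hm := hν.meas
  have hna : ∀ i, S.NonAt A i → ∀ t0 : ℝ, S.mA A ν i {ν | ν 1 = t0} = 0 := by
    intro i hi t0
    rw [mA_apply hm i (measurableSet_eq_fun (measurable_pi_apply 1) measurable_const)]
    refine le_antisymm (le_trans (measure_mono_ae ?_) (hi t0).le) zero_le
    filter_upwards [ae_can i] with x hx hx'
    exact ⟨hx'.2, (hν.slope x hx.1).symm.trans hx'.1⟩
  refine ⟨C0, hC0 S hS hΛ A hA n ν hν c1 hc1 hcore hg, hbc, fun h0 => hT ?_, hna b hb, hna c hc,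
    fun r => ?_, fun B C hB hC h => ?_⟩
  · have := κA_apply (A := A) hm MeasurableSet.univ
    rw [h0] at this
    simpa using this.symm
  · rw [κA_apply hm (measurableSet_eq_fun (by fun_prop) (by fun_prop))]
    refine measure_mono_null (fun ω hω => ?_) (hr r)
    have := hω.2
    simp only [Set.mem_ofPred_eq, slope_tx hν.toMarks0 hω.1.1] at this
    exact ⟨hω.1.1, this⟩
  · rw [κA_apply hm (s := {x | x b ∈ B}) (measurable_pi_apply b hB),
      κA_apply hm (s := {x | x b ∉ B}) (measurable_pi_apply b hB).compl]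
    refine hirr (ν ⁻¹' B) (ν ⁻¹' C) (ls_pre hm hν.line hB) (ls_pre hm hν.line hC) ?_
    exact (ae_restrict_iff' (S.measurableSet_TA hA.1)).1
      (ae_of_ae_map (meas_νtx hm).aemeasurable h)

theorem nonAt_pull {A0 : Set (S.Ω × ℕ)} {i : Fin 3}
    (h : S.NonAt A0 i) (D : Dyn) (π : D.Ω → S.Ω) (hπ : D.Fac S.toDyn π) {A : Set (D.Ω × ℕ)}
    (hA : A ⊆ pullS π A0) : (S.pull D π hπ).NonAt A i := by
  intro t0
  refine measure_mono_null ?_ ((S.mp_mh D π hπ i).quasiMeasurePreserving.preimage_null (h t0))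
  exact fun _ hx => ⟨hA hx.1, hx.2⟩

end ECub.S2
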