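import Pool.Agent.P.MP_029dcd_co.F.S2.Base

/-! Layer S2, part 2: cores by exhaustion, and the potential that gives irreducibility. -/

set_option autoImplicit false

namespace ECub.S2

open CubicStab MeasureTheory Filter Topology Finset
open scoped ENNReal

/-- exhaustion: a member that is maximal among its subsets -/
theorem exhaust {α : Type*} (F : Set α → Prop) (Ψ : Set α → ℝ) (M : ℝ) (hM : ∀ A, Ψ A ≤ M)
    (hI : ∀ A : ℕ → Set α, (∀ m, F (A m)) → Antitone A →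
      F (⋂ m, A m) ∧ Tendsto (fun m => Ψ (A m)) atTop (𝓝 (Ψ (⋂ m, A m))))
    {A1 : Set α} (h1 : F A1) :
    ∃ A, F A ∧ A ⊆ A1 ∧ Ψ A1 ≤ Ψ A ∧ ∀ A', F A' → A' ⊆ A → Ψ A' ≤ Ψ A := by
  have step : ∀ (m : ℕ) (A : {A // F A}), ∃ A' : {A // F A}, A'.1 ⊆ A.1 ∧ Ψ A.1 ≤ Ψ A'.1 ∧
      ∀ A'', F A'' → A'' ⊆ A.1 → Ψ A'' ≤ Ψ A'.1 + 1 / ((m : ℝ) + 1) := by
    intro m A
    let V : Set ℝ := {v | ∃ A', F A' ∧ A' ⊆ A.1 ∧ Ψ A' = v}
    have hb : BddAbove V := ⟨M, by rintro _ ⟨A', -, -, rfl⟩; exact hM _⟩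
    have hε : (0 : ℝ) < 1 / ((m : ℝ) + 1) := by positivity
    obtain ⟨_, ⟨A', hF, hs, rfl⟩, hlt⟩ := exists_lt_of_lt_csSup (s := V)
      ⟨_, A.1, A.2, Set.Subset.rfl, rfl⟩ (sub_lt_self (sSup V) hε)
    have hle : ∀ A'', F A'' → A'' ⊆ A.1 → Ψ A'' ≤ sSup V := fun A'' h h' =>
      le_csSup hb ⟨A'', h, h', rfl⟩
    by_cases hc : Ψ A.1 ≤ Ψ A'
    · exact ⟨⟨A', hF⟩, hs, hc, fun A'' h h' => by linarith [hle A'' h h']⟩
    · exact ⟨A, Set.Subset.rfl, le_rfl, fun A'' h h' => by linarith [hle A'' h h']⟩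
  choose nx h2 h3 h4 using step
  let A : ℕ → {A // F A} := fun m => Nat.rec ⟨A1, h1⟩ nx m
  have hanti : Antitone fun m => (A m).1 := antitone_nat_of_succ_le fun m => h2 m (A m)
  have hmono : Monotone fun m => Ψ (A m).1 := monotone_nat_of_le_succ fun m => h3 m (A m)
  obtain ⟨k1, k2⟩ := hI _ (fun m => (A m).2) hanti
  have hle : ∀ m, Ψ (A m).1 ≤ Ψ (⋂ m, (A m).1) := hmono.ge_of_tendsto k2
  refine ⟨_, k1, Set.iInter_subset _ 0, hle 0, fun A' hF hs => ?_⟩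
  have h5 : ∀ m : ℕ, Ψ A' ≤ Ψ (⋂ m, (A m).1) + 1 / ((m : ℝ) + 1) := fun m =>
    (h4 m (A m) A' hF (hs.trans (Set.iInter_subset _ m))).trans
      (add_le_add (hle (m + 1)) le_rfl)
  have h6 := (tendsto_one_div_add_atTop_nhds_zero_nat (𝕜 := ℝ)).const_add (Ψ (⋂ m, (A m).1))
  simpa using ge_of_tendsto' h6 h5

variable {S : Sys}

theorem tendsto_real {α : Type*} [MeasurableSpace α] (μ : Measure α) [IsFiniteMeasure μ]
    {A : ℕ → Set α} (hA : ∀ m, MeasurableSet (A m)) (h : Antitone A) :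
    Tendsto (fun m => μ.real (A m)) atTop (𝓝 (μ.real (⋂ m, A m))) :=
  (ENNReal.tendsto_toReal (measure_ne_top _ _)).comp
    (tendsto_measure_iInter_atTop (fun m => (hA m).nullMeasurableSet) h ⟨0, measure_ne_top _ _⟩)

theorem tx_fam {ω : S.Ω} (h : (S.Γ ω).tp 0 = true) (i j : Fin 3) : S.tx ω i ∈ Fam S j ↔ i = j := by
  have := (tx_can h i).2.1
  exact ⟨fun k => this.symm.trans k, fun k => this.trans k⟩

theorem mh_congr (i : Fin 3) {A B : Set (S.Ω × ℕ)}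
    (h : ∀ x : S.Ω × ℕ, (S.Γ x.1).fam (0, x.2) = i → (x ∈ A ↔ x ∈ B)) :
    (S.mh i).real A = (S.mh i).real B := by
  refine measureReal_congr ?_
  filter_upwards [ae_can i] with x hx
  exact propext (h x hx.2.1)

/-- existence of cores -/
theorem exists_core {A1 : Set (S.Ω × ℕ)} (h1 : S.LineSet A1) (cc : Fin 3 → ℝ)
    (hc : ∀ i, 0 ≤ cc i) : ∃ A, S.LineSet A ∧ A ⊆ A1 ∧ (∀ i, Core1 S A i (cc i)) ∧
      S.μ.real (S.TA A1) - ∑ i, cc i * (S.mh i).real A1 ≤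
        S.μ.real (S.TA A) - ∑ i, cc i * (S.mh i).real A := by
  obtain ⟨A, hA, hs, hle, hmax⟩ := exhaust S.LineSet
    (fun A => S.μ.real (S.TA A) - ∑ i, cc i * (S.mh i).real A) 1
    (fun A => by
      have h2 : 0 ≤ ∑ i, cc i * (S.mh i).real A :=
        Finset.sum_nonneg fun i _ => mul_nonneg (hc i) measureReal_nonneg
      have h3 : S.μ.real (S.TA A) ≤ 1 := measureReal_le_one
      linarith)
    (fun A hA hanti => ⟨ls_iInter hA, by
      have e : S.TA (⋂ m, A m) = ⋂ m, S.TA (A m) := by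
        ext ω
        simp only [Sys.TA, Set.mem_iInter, Set.mem_ofPred_eq]
        exact ⟨fun h m => ⟨h.1, fun i => h.2 i m⟩, fun h => ⟨(h 0).1, fun i m => (h m).2 i⟩⟩
      rw [e]
      exact (tendsto_real S.μ (fun m => S.measurableSet_TA (hA m).1)
        fun m m' h ω hω => ⟨hω.1, fun i => hanti h (hω.2 i)⟩).sub
        (tendsto_finsetSum _ fun i _ =>
          (tendsto_real (S.mh i) (fun m => (hA m).1) hanti).const_mul _)⟩) h1
  refine ⟨A, hA, hs, fun i B hB => ?_, hle⟩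
  have hA' : S.LineSet (A ∩ (B ∩ Fam S i)ᶜ) := ls_inter hA (ls_compl (ls_inter hB (ls_fam i)))
  have h2 := hmax _ hA' Set.inter_subset_left
  have h3 : S.TA (A ∩ (B ∩ Fam S i)ᶜ) = S.TA A \ {ω | S.tx ω i ∈ B} := by
    ext ω
    constructor
    · exact fun h => ⟨⟨h.1, fun j => (h.2 j).1⟩, fun k => (h.2 i).2 ⟨k, (tx_fam h.1 i i).2 rfl⟩⟩
    · refine fun h => ⟨h.1.1, fun j => ⟨h.1.2 j, fun k => h.2 ?_⟩⟩
      obtain rfl := (tx_fam h.1.1 j i).1 k.2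
      exact k.1
  have h4 := measureReal_inter_add_sdiff (μ := S.μ) (s := S.TA A) (S.measurable_tx i hB.1)
  have h5 : ∀ j, (S.mh j).real A - (S.mh j).real (A ∩ (B ∩ Fam S i)ᶜ) =
      if j = i then (S.mh i).real (B ∩ A) else 0 := by
    intro j
    split_ifs with hj
    · subst hj
      have h6 := measureReal_inter_add_sdiff (μ := S.mh j) (s := A) hB.1
      rw [mh_congr j (A := A ∩ (B ∩ Fam S j)ᶜ) (B := A \ B) fun x hx => by simp [Fam, hx],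
        Set.inter_comm B A]
      linarith
    · rw [mh_congr j (A := A ∩ (B ∩ Fam S i)ᶜ) (B := A) fun x hx => by simp [Fam, hx, hj], sub_self]
  have h6 : ∑ j, cc j * (S.mh j).real A - ∑ j, cc j * (S.mh j).real (A ∩ (B ∩ Fam S i)ᶜ) =
      cc i * (S.mh i).real (B ∩ A) := by
    rw [← Finset.sum_sub_distrib]
    simp only [← mul_sub, h5, mul_ite, mul_zero, Finset.sum_ite_eq', Finset.mem_univ, if_true]
  rw [h3] at h2
  change S.μ.real (S.TA A ∩ {ω | S.tx ω i ∈ B}) + S.μ.real (S.TA A \ {ω | S.tx ω i ∈ B}) = _ at h4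
  linarith

/-- the numerical part of the potential argument -/
theorem num (P C X : ℝ) (hP : 0 < P) (hC : 0 < C) (hX : 0 < X) :
    ∃ c ca η : ℝ, 0 < ca ∧ ca ≤ c ∧ 0 < η ∧ η < 1 ∧
      ∀ τ x τ' x' β : ℝ, 0 ≤ x' → x' ≤ x → x ≤ X → 0 ≤ τ →
      τ ≤ C * x ^ 2 → (1 - η) * P * x ^ 3 < τ ^ 2 → β ≤ X → τ - c * (x - x') - ca * β ≤ τ' →
      0 < τ' ∧ ∀ τ1 τ2 x1 x2 : ℝ, 0 ≤ x1 → 0 ≤ x2 → τ' ≤ τ1 + τ2 → x1 + x2 ≤ x' →
        τ1 ^ 2 ≤ P * x1 ^ 3 → τ2 ^ 2 ≤ P * x2 ^ 3 → c ≤ C * x1 → c ≤ C * x2 → False := by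
  obtain ⟨xm, hxm, hxm'⟩ : ∃ xm : ℝ, 0 < xm ∧ xm * (2 * C ^ 2) = P :=
    ⟨P / (2 * C ^ 2), by positivity, by field_simp⟩
  obtain ⟨c, hc, hc'⟩ : ∃ c : ℝ, 0 < c ∧ 8 * c ^ 2 = P * xm :=
    ⟨Real.sqrt (P * xm / 8), by positivity, by rw [Real.sq_sqrt (by positivity)]; ring⟩
  obtain ⟨δ, hδ, hδ1, hδ2⟩ : ∃ δ : ℝ, 0 < δ ∧ δ ≤ 1 / 2 ∧ δ * (C * X) ≤ c :=
    ⟨min (1 / 2) (c / (C * X)), by positivity, min_le_left _ _,
      (le_div_iff₀ (by positivity)).1 (min_le_right _ _)⟩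
  obtain ⟨ca, hca, hca1, hca2⟩ : ∃ ca : ℝ, 0 < ca ∧ ca ≤ c ∧ ca * X ≤ δ / 4 * (c * xm) :=
    ⟨min c (δ / 4 * (c * xm) / X), by positivity, min_le_left _ _,
      (le_div_iff₀ hX).1 (min_le_right _ _)⟩
  refine ⟨c, ca, δ / 4, hca, hca1, by positivity, by linarith, ?_⟩
  intro τ x τ' x' β h0 h1 h2 h3 h4 h5 h6 h7
  have hx0 : 0 ≤ x := h0.trans h1
  have h8 : P / 2 * x ^ 3 < τ ^ 2 := by
    refine lt_of_le_of_lt ?_ h5
    exact mul_le_mul_of_nonneg_right (by nlinarith) (by positivity)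
  have h9 : τ ^ 2 ≤ C ^ 2 * x ^ 4 := by
    calc τ ^ 2 ≤ (C * x ^ 2) ^ 2 := pow_le_pow_left₀ h3 h4 2
      _ = _ := by ring
  have hx : 0 < x := by
    rcases hx0.eq_or_lt with h | h
    · rw [← h] at h8 h9
      norm_num at h8 h9
      rw [h9] at h8
      norm_num at h8
    · exact h
  have h10 : xm < x := by
    have h11 : (C ^ 2 * x ^ 3) * xm < (C ^ 2 * x ^ 3) * x := by
      calc (C ^ 2 * x ^ 3) * xm = P / 2 * x ^ 3 := by rw [← hxm']; ring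
        _ < C ^ 2 * x ^ 4 := h8.trans_le h9
        _ = _ := by ring
    exact lt_of_mul_lt_mul_left h11 (by positivity)
  have h11 : 2 * c * x ≤ τ := by
    refine le_of_pow_le_pow_left₀ two_ne_zero h3 ?_
    calc (2 * c * x) ^ 2 = P / 2 * x ^ 2 * xm := by
          have : (2 * c * x) ^ 2 = (8 * c ^ 2) * x ^ 2 / 2 := by ring
          rw [this, hc']; ring
      _ ≤ P / 2 * x ^ 2 * x := mul_le_mul_of_nonneg_left h10.le (by positivity)
      _ = P / 2 * x ^ 3 := by ring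
      _ ≤ _ := h8.le
  set u := τ - c * (x - x') with hu
  have hcx : 0 ≤ c * x' := by positivity
  have h12 : c * xm ≤ u := by
    have := mul_le_mul_of_nonneg_left h10.le hc.le
    rw [hu]
    linarith
  have hu0 : 0 < u := lt_of_lt_of_le (by positivity) h12
  have h13 : (1 - δ / 4) * u ≤ τ' := by
    have e1 := mul_le_mul_of_nonneg_left h6 hca.le
    have e2 := mul_le_mul_of_nonneg_left h12 (show 0 ≤ δ / 4 by positivity)
    linarith
  have hq : 0 < 1 - δ / 4 := by linarith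
  have hτ' : 0 < τ' := lt_of_lt_of_le (by positivity) h13
  refine ⟨hτ', fun τ1 τ2 x1 x2 k1 k2 k3 k4 k5 k6 k7 k8 => ?_⟩
  have hx1 : 0 < x1 := (mul_pos_iff_of_pos_left hC).1 (hc.trans_le k7)
  have hx' : 0 < x' := by linarith
  have h14 : τ * x' ≤ u * x := by
    have e1 : c * x * (x - x') ≤ τ * (x - x') :=
      mul_le_mul_of_nonneg_right (by linarith [mul_pos hc hx]) (by linarith)
    rw [hu]
    linarith
  have h15 : (1 - δ / 4) * P * x' ^ 3 < u ^ 2 := by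
    have e1 : (τ * x') ^ 2 ≤ (u * x) ^ 2 := pow_le_pow_left₀ (by positivity) h14 2
    have e2 : ((1 - δ / 4) * P * x' ^ 3) * x ^ 3 < u ^ 2 * x ^ 3 := by
      calc ((1 - δ / 4) * P * x' ^ 3) * x ^ 3 = ((1 - δ / 4) * P * x ^ 3) * x' ^ 3 := by ring
        _ < τ ^ 2 * x' ^ 3 := mul_lt_mul_of_pos_right h5 (by positivity)
        _ = (τ * x') ^ 2 * x' := by ring
        _ ≤ (u * x) ^ 2 * x := mul_le_mul e1 h1 h0 (by positivity)
        _ = _ := by ring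
    exact lt_of_mul_lt_mul_right e2 (by positivity)
  have hδx : ∀ y : ℝ, c ≤ C * y → δ * x' ≤ y := by
    intro y hy
    have e1 : C * (δ * x') ≤ C * y := by
      have := mul_le_mul_of_nonneg_left (h1.trans h2) (show 0 ≤ δ * C by positivity)
      linarith
    exact le_of_mul_le_mul_left e1 hC
  obtain ⟨s, hs, hs'⟩ : ∃ s : ℝ, 0 ≤ s ∧ s ^ 2 = P * ((1 - δ) * x') :=
    ⟨Real.sqrt _, Real.sqrt_nonneg _, Real.sq_sqrt (by
      have : 0 ≤ 1 - δ := by linarith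
      positivity)⟩
  have hsp : ∀ t y : ℝ, 0 ≤ y → y ≤ (1 - δ) * x' → t ^ 2 ≤ P * y ^ 3 → t ≤ s * y := by
    intro t y hy hy' ht
    refine le_of_pow_le_pow_left₀ two_ne_zero (by positivity) ?_
    calc t ^ 2 ≤ P * y * y ^ 2 := by linarith
      _ ≤ P * ((1 - δ) * x') * y ^ 2 :=
        mul_le_mul_of_nonneg_right (mul_le_mul_of_nonneg_left hy' hP.le) (by positivity)
      _ = _ := by rw [mul_pow, hs']
  have e1 := hsp τ1 x1 k1 (by linarith [hδx x2 k8]) k5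
  have e2 := hsp τ2 x2 k2 (by linarith [hδx x1 k7]) k6
  have e3 : τ' ≤ s * x' := by
    have := mul_le_mul_of_nonneg_left k4 hs
    linarith
  have e4 : ((1 - δ / 4) * u) ^ 2 ≤ (s * x') ^ 2 :=
    pow_le_pow_left₀ (by positivity) (h13.trans e3) 2
  have e5 : (1 - δ / 4) ^ 3 * (P * x' ^ 3) < (1 - δ) * (P * x' ^ 3) := by
    calc (1 - δ / 4) ^ 3 * (P * x' ^ 3) = (1 - δ / 4) ^ 2 * ((1 - δ / 4) * P * x' ^ 3) := by ring
      _ < (1 - δ / 4) ^ 2 * u ^ 2 := mul_lt_mul_of_pos_left h15 (by positivity)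
      _ = ((1 - δ / 4) * u) ^ 2 := by ring
      _ ≤ (s * x') ^ 2 := e4
      _ = _ := by rw [mul_pow, hs']; ring
  have e6 : (1 - δ / 4) ^ 3 < 1 - δ := lt_of_mul_lt_mul_right e5 (by positivity)
  have e7 := one_add_mul_le_pow (show (-2 : ℝ) ≤ -(δ / 4) by linarith) 3
  rw [← sub_eq_add_neg] at e7
  push_cast at e7
  linarith

/-- the product bound for the triple points of a set of lines -/
def PF (S : Sys) (b c : Fin 3) (C : ℝ) : Prop :=
  ∀ A, S.LineSet A → S.μ.real (S.TA A) ≤ C * ((S.mh b).real A * (S.mh c).real A)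

theorem exists_pf (Λ : (ℝ × ℝ) ≃L[ℝ] (ℝ × ℝ)) {b c : Fin 3} (hbc : b ≠ c) :
    ∃ C : ℝ, 0 < C ∧ ∀ S : Sys, S.toDyn.Erg → S.Lin Λ → PF S b c C := by
  obtain ⟨C0, h⟩ := pf_sets Λ
  refine ⟨C0 + 1, by positivity, fun S hS hΛ A hA => ?_⟩
  have h1 : S.μ (S.TA A) ≤ C0 * S.mh b A * S.mh c A := by
    refine le_trans (measure_mono ?_) (h S hS hΛ b c hbc A A hA hA)
    exact fun ω hω => ⟨hω.1, hω.2 b, hω.2 c⟩
  have h2 := ENNReal.toReal_mono (ENNReal.mul_ne_top (ENNReal.mul_ne_top ENNReal.coe_ne_top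
    (measure_ne_top _ _)) (measure_ne_top _ _)) h1
  rw [ENNReal.toReal_mul, ENNReal.toReal_mul, mul_assoc] at h2
  refine le_trans h2 (mul_le_mul_of_nonneg_right ?_
    (mul_nonneg measureReal_nonneg measureReal_nonneg))
  simp

/-- one half of a splitting -/
theorem half {b c : Fin 3} (hbc : b ≠ c) {C0 c0 : ℝ} (hpf : PF S b c C0) {A B C : Set (S.Ω × ℕ)}
    (hA : S.LineSet A) (hB : S.LineSet B) (hC : S.LineSet C) (hcore : Core1 S A b c0)
    (h : ∀ᵐ ω ∂S.μ, ω ∈ S.TA A → S.tx ω b ∈ B → S.tx ω c ∈ C)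
    (h0 : S.μ (S.TA A ∩ {ω | S.tx ω b ∈ B}) ≠ 0) :
    ∃ A1, S.LineSet A1 ∧ A1 ⊆ A ∧ S.μ.real (S.TA A ∩ {ω | S.tx ω b ∈ B}) ≤ S.μ.real (S.TA A1) ∧
      (S.mh b).real A1 = (S.mh b).real (A ∩ B) ∧ (S.mh c).real A1 = (S.mh c).real (A ∩ C) ∧
      c0 ≤ C0 * (S.mh c).real A1 := by
  have hA1 : S.LineSet (A ∩ ((Fam S b ∩ Bᶜ)ᶜ ∩ (Fam S c ∩ Cᶜ)ᶜ)) :=
    ls_inter hA (ls_inter (ls_compl (ls_inter (ls_fam b) (ls_compl hB)))
      (ls_compl (ls_inter (ls_fam c) (ls_compl hC))))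
  have h1 : S.μ.real (S.TA A ∩ {ω | S.tx ω b ∈ B}) ≤
      S.μ.real (S.TA (A ∩ ((Fam S b ∩ Bᶜ)ᶜ ∩ (Fam S c ∩ Cᶜ)ᶜ))) := by
    refine ENNReal.toReal_mono (measure_ne_top _ _) (measure_mono_ae ?_)
    filter_upwards [h] with ω k1 k2
    refine ⟨k2.1.1, fun i => ⟨k2.1.2 i, fun k => ?_, fun k => ?_⟩⟩
    · obtain rfl := (tx_fam k2.1.1 i b).1 k.1
      exact k.2 k2.2
    · obtain rfl := (tx_fam k2.1.1 i c).1 k.1
      exact k.2 (k1 k2.1 k2.2)
  have h2 : (S.mh b).real (A ∩ ((Fam S b ∩ Bᶜ)ᶜ ∩ (Fam S c ∩ Cᶜ)ᶜ)) = (S.mh b).real (A ∩ B) :=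
    mh_congr b fun x hx => by simp [Fam, hx, hbc]
  have h3 : (S.mh c).real (A ∩ ((Fam S b ∩ Bᶜ)ᶜ ∩ (Fam S c ∩ Cᶜ)ᶜ)) = (S.mh c).real (A ∩ C) :=
    mh_congr c fun x hx => by simp [Fam, hx, hbc.symm]
  refine ⟨_, hA1, Set.inter_subset_left, h1, h2, h3, ?_⟩
  have h4 := hcore B hB
  have h5 := h1.trans (hpf _ hA1)
  rw [h2] at h5
  rw [Set.inter_comm B A] at h4
  have h6 : 0 < S.μ.real (S.TA A ∩ {ω | S.tx ω b ∈ B}) :=
    ENNReal.toReal_pos h0 (measure_ne_top _ _)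
  have h7 : 0 < (S.mh b).real (A ∩ B) := by
    refine lt_of_le_of_ne measureReal_nonneg fun e => ?_
    rw [← e] at h5
    linarith
  refine le_of_mul_le_mul_right ?_ h7
  linarith

/-- an extension with a core that is irreducible in all further extensions -/
theorem stageA (S : Sys) (hS : S.toDyn.Erg) {Λ : (ℝ × ℝ) ≃L[ℝ] (ℝ × ℝ)} (hΛ : S.Lin Λ)
    {b c : Fin 3} (hbc : b ≠ c) {A0 : Set (S.Ω × ℕ)} (hA0 : S.LineSet A0)
    (hT : S.μ (S.TA A0) ≠ 0) :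
    ∃ (D : Dyn) (π : D.Ω → S.Ω) (hπ : D.Fac S.toDyn π) (A : Set (D.Ω × ℕ)) (c1 : NNReal),
      D.Erg ∧ (S.pull D π hπ).LineSet A ∧ A ⊆ pullS π A0 ∧ D.μ ((S.pull D π hπ).TA A) ≠ 0 ∧
      0 < c1 ∧ (S.pull D π hπ).Core A c1 ∧
      ∀ (D' : Dyn) (π' : D'.Ω → D.Ω) (hπ' : D'.Fac (S.pull D π hπ).toDyn π'), D'.Erg →
        ((S.pull D π hπ).pull D' π' hπ').Irr (pullS π' A) b c := by
  obtain ⟨C, hC, hpf⟩ := exists_pf Λ hbc
  obtain ⟨X, hX, hXb⟩ : ∃ X : ℝ, 0 < X ∧ ∀ (D : Dyn) (π : D.Ω → S.Ω) (hπ : D.Fac S.toDyn π)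
      (A : Set (D.Ω × ℕ)), ∑ i, ((S.pull D π hπ).mh i).real A ≤ X := by
    refine ⟨∑ i, (S.mh i).real Set.univ + 1,
      add_pos_of_nonneg_of_pos (Finset.sum_nonneg fun _ _ => measureReal_nonneg) one_pos,
      fun D π hπ A => le_trans (Finset.sum_le_sum fun i _ => ?_) (le_add_of_nonneg_right zero_le_one)⟩
    rw [measureReal_def (S.mh i), ← mh_pull MeasurableSet.univ i D π hπ]
    exact measureReal_mono (Set.subset_univ _)
  obtain ⟨a, hsum⟩ : ∃ a : Fin 3, a ≠ b ∧ a ≠ c ∧ ∀ f : Fin 3 → ℝ, ∑ i, f i = f a + (f b + f c) := by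
    fin_cases b <;> fin_cases c <;> first
      | exact absurd rfl hbc
      | exact ⟨0, by decide, by decide, fun f => by simp [Fin.sum_univ_three]; ring⟩
      | exact ⟨1, by decide, by decide, fun f => by simp [Fin.sum_univ_three]; ring⟩
      | exact ⟨2, by decide, by decide, fun f => by simp [Fin.sum_univ_three]; ring⟩
  obtain ⟨hab, hac, hsum⟩ := hsum
  let xx : ∀ S' : Sys, Set (S'.Ω × ℕ) → ℝ := fun S' A => (S'.mh b).real A + (S'.mh c).real A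
  have hxx : ∀ S' A, 0 ≤ xx S' A := fun S' A => add_nonneg measureReal_nonneg measureReal_nonneg
  have hsq : ∀ S' : Sys, PF S' b c C → ∀ A, S'.LineSet A →
      S'.μ.real (S'.TA A) ≤ C * xx S' A ^ 2 := by
    intro S' h A hA
    refine (h A hA).trans (mul_le_mul_of_nonneg_left ?_ hC.le)
    have h1 : 0 ≤ (S'.mh b).real A := measureReal_nonneg
    have h2 : 0 ≤ (S'.mh c).real A := measureReal_nonneg
    simp only [xx]
    nlinarith [mul_nonneg h1 h2]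
  have hxX : ∀ (D : Dyn) (π : D.Ω → S.Ω) (hπ : D.Fac S.toDyn π) (A : Set (D.Ω × ℕ)),
      xx (S.pull D π hπ) A ≤ X := by
    intro D π hπ A
    have h1 := hXb D π hπ A
    rw [hsum] at h1
    have h2 : 0 ≤ ((S.pull D π hπ).mh a).real A := measureReal_nonneg
    simp only [xx]
    linarith
  let V : Set ℝ := {p | ∃ (D : Dyn) (π : D.Ω → S.Ω) (hπ : D.Fac S.toDyn π) (A : Set (D.Ω × ℕ)),
    D.Erg ∧ (S.pull D π hπ).LineSet A ∧ A ⊆ pullS π A0 ∧
      p = D.μ.real ((S.pull D π hπ).TA A) ^ 2 / xx (S.pull D π hπ) A ^ 3}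
  have hbdd : BddAbove V := by
    refine ⟨C ^ 2 * X, ?_⟩
    rintro _ ⟨D, π, hπ, A, hD, hA, -, rfl⟩
    have h1 := hsq _ (hpf _ hD (hΛ.pull D π hπ)) A hA
    refine div_le_of_le_mul₀ (pow_nonneg (hxx _ _) 3) (by positivity) ?_
    calc D.μ.real ((S.pull D π hπ).TA A) ^ 2 ≤ (C * xx (S.pull D π hπ) A ^ 2) ^ 2 :=
          pow_le_pow_left₀ measureReal_nonneg h1 2
      _ = C ^ 2 * xx (S.pull D π hπ) A * xx (S.pull D π hπ) A ^ 3 := by ring
      _ ≤ _ := mul_le_mul_of_nonneg_right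
          (mul_le_mul_of_nonneg_left (hxX D π hπ A) (by positivity)) (pow_nonneg (hxx _ _) 3)
  have hmem : S.μ.real (S.TA A0) ^ 2 / xx S A0 ^ 3 ∈ V :=
    ⟨S.toDyn, fun ω => ω, fac_id _, A0, hS, hA0, Set.Subset.rfl, rfl⟩
  have hP : 0 < sSup V := by
    refine lt_of_lt_of_le ?_ (le_csSup hbdd hmem)
    have h1 : 0 < S.μ.real (S.TA A0) := ENNReal.toReal_pos hT (measure_ne_top _ _)
    have h2 : 0 < xx S A0 := by
      refine lt_of_le_of_ne (hxx _ _) fun e => ?_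
      have := hsq S (hpf S hS hΛ) A0 hA0
      rw [← e] at this
      linarith
    positivity
  have hle : ∀ (D : Dyn) (π : D.Ω → S.Ω) (hπ : D.Fac S.toDyn π) (A : Set (D.Ω × ℕ)), D.Erg →
      (S.pull D π hπ).LineSet A → A ⊆ pullS π A0 →
      D.μ.real ((S.pull D π hπ).TA A) ^ 2 ≤ sSup V * xx (S.pull D π hπ) A ^ 3 := by
    intro D π hπ A hD hA hs
    rcases (hxx (S.pull D π hπ) A).eq_or_lt with e | e
    · have h1 := hsq _ (hpf _ hD (hΛ.pull D π hπ)) A hA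
      rw [← e] at h1 ⊢
      have h2 : D.μ.real ((S.pull D π hπ).TA A) = 0 :=
        le_antisymm (h1.trans (by simp)) measureReal_nonneg
      simp [h2]
    · exact (div_le_iff₀ (pow_pos e 3)).1 (le_csSup hbdd ⟨D, π, hπ, A, hD, hA, hs, rfl⟩)
  obtain ⟨c0, ca, η, hca, hcc, hη, hη1, hnum⟩ := num (sSup V) C X hP hC hX
  obtain ⟨_, ⟨D, π, hπ, A1, hD, hA1, hs1, rfl⟩, hlt⟩ := exists_lt_of_lt_csSup ⟨_, hmem⟩
    (show (1 - η) * sSup V < sSup V by nlinarith)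
  have hlt' : (1 - η) * sSup V * xx (S.pull D π hπ) A1 ^ 3 <
      D.μ.real ((S.pull D π hπ).TA A1) ^ 2 := by
    rcases (hxx (S.pull D π hπ) A1).eq_or_lt with e | e
    · rw [← e] at hlt
      have : 0 < (1 - η) * sSup V := mul_pos (by linarith) hP
      norm_num at hlt
      linarith
    · exact (lt_div_iff₀ (pow_pos e 3)).1 hlt
  obtain ⟨A, hA, hs, hcore, hpot⟩ := exists_core hA1 (fun i => if i = a then ca else c0)
    (fun i => by split_ifs <;> linarith)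
  have hmono : ∀ i, ((S.pull D π hπ).mh i).real A ≤ ((S.pull D π hπ).mh i).real A1 := fun i =>
    measureReal_mono hs
  have hβ : ((S.pull D π hπ).mh a).real A1 - ((S.pull D π hπ).mh a).real A ≤ X := by
    have h1 := hXb D π hπ A1
    rw [hsum] at h1
    have h2 := hxx (S.pull D π hπ) A1
    have h3 : 0 ≤ ((S.pull D π hπ).mh a).real A := measureReal_nonneg
    simp only [xx] at h2
    linarith
  obtain ⟨hpos, hsplit⟩ := hnum (D.μ.real ((S.pull D π hπ).TA A1)) (xx (S.pull D π hπ) A1)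
    (D.μ.real ((S.pull D π hπ).TA A)) (xx (S.pull D π hπ) A) _ (hxx _ _)
    (add_le_add (hmono b) (hmono c)) (hxX D π hπ A1) measureReal_nonneg
    (hsq _ (hpf _ hD (hΛ.pull D π hπ)) A1 hA1) hlt' hβ (by
      rw [hsum, hsum] at hpot
      simp only [if_true, if_neg hab.symm, if_neg hac.symm] at hpot
      change D.μ.real _ - _ ≤ D.μ.real _ - _ at hpot
      simp only [xx]
      linarith)
  refine ⟨D, π, hπ, A, ⟨ca, hca.le⟩, hD, hA, hs.trans hs1, fun h0 => ?_, hca,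
    core_iff.2 fun i => (hcore i).mono ?_, fun D' π' hπ' hD' B B' hB hB' hae => ?_⟩
  · rw [measureReal_def, h0] at hpos
    simp at hpos
  · change ca ≤ _
    split_ifs
    · exact le_rfl
    · exact hcc
  by_contra hne
  rw [not_or] at hne
  have hcb := (hcore b).pull hA D' π' hπ'
  simp only [if_neg hab.symm] at hcb
  have hA' := hA.pull D' π' hπ'
  have hpf' := hpf ((S.pull D π hπ).pull D' π' hπ') hD' ((hΛ.pull D π hπ).pull D' π' hπ')
  obtain ⟨A₁, k1, k2, k3, k4, k5, k6⟩ := half hbc hpf' hA' hB hB' hcb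
    (by filter_upwards [hae] with ω h h' using (h h').1) hne.1
  obtain ⟨A₂, l1, l2, l3, l4, l5, l6⟩ := half hbc hpf' hA' (ls_compl hB) (ls_compl hB') hcb
    (by filter_upwards [hae] with ω h h' using (h h').not.1) hne.2
  have hsub : ∀ A' : Set (D'.Ω × ℕ), A' ⊆ pullS π' A → A' ⊆ pullS (fun ω => π (π' ω)) A0 :=
    fun A' h x hx => hs1 (hs (h hx))
  have hCx : ∀ A' : Set (D'.Ω × ℕ), c0 ≤ C * (((S.pull D π hπ).pull D' π' hπ').mh c).real A' →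
      c0 ≤ C * xx ((S.pull D π hπ).pull D' π' hπ') A' := fun A' h =>
    h.trans (mul_le_mul_of_nonneg_left (le_add_of_nonneg_left measureReal_nonneg) hC.le)
  refine hsplit _ _ (xx _ A₁) (xx _ A₂) (hxx _ _) (hxx _ _) ?_ ?_
    (hle D' _ (fac_comp hπ hπ') A₁ hD' k1 (hsub _ k2))
    (hle D' _ (fac_comp hπ hπ') A₂ hD' l1 (hsub _ l2)) (hCx _ k6) (hCx _ l6)
  · have e1 := measureReal_inter_add_sdiff (μ := ((S.pull D π hπ).pull D' π' hπ').μ)
      (s := ((S.pull D π hπ).pull D' π' hπ').TA (pullS π' A))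
      (((S.pull D π hπ).pull D' π' hπ').measurable_tx b hB.1)
    have e2 : D.μ.real ((S.pull D π hπ).TA A) = ((S.pull D π hπ).pull D' π' hπ').μ.real
        (((S.pull D π hπ).pull D' π' hπ').TA (pullS π' A)) :=
      congrArg ENNReal.toReal (TA_pull hA.1 D' π' hπ').symm
    rw [e2, ← e1]
    exact add_le_add k3 l3
  · have e : ∀ i (T : Set (D'.Ω × ℕ)), MeasurableSet T →
        (((S.pull D π hπ).pull D' π' hπ').mh i).real (pullS π' A ∩ T) +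
        (((S.pull D π hπ).pull D' π' hπ').mh i).real (pullS π' A ∩ Tᶜ) =
        ((S.pull D π hπ).mh i).real A := fun i T hT =>
      (measureReal_inter_add_sdiff hT).trans (congrArg ENNReal.toReal (mh_pull hA.1 i D' π' hπ'))
    have e1 := e b B hB.1
    have e2 := e c B' hB'.1
    exact le_of_eq ((add_add_add_comm _ _ _ _).trans
      (congrArg₂ (· + ·) ((congrArg₂ (· + ·) k4 l4).trans e1) ((congrArg₂ (· + ·) k5 l5).trans e2)))

end ECub.S2
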